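import Pool.Agent.W95.EQ.Stm

/-!
Push-forward of the kernels (MP_edb0ca_an, part EQM-KID).
-/

set_option autoImplicit false

open Polynomial Topology Filter MeasureTheory
open scoped ENNReal

namespace Pool.Agent.W397.EQ

open Pool.Agent.W95.BK Pool.Agent.W95.EQ

universe u

section lemmas

variable {K : Type u} [NontriviallyNormedField K] [IsUltrametricDist K]

theorem nsub (a w : K) : ‖a - w‖ ≤ max ‖a‖ ‖w‖ := by
  have := IsUltrametricDist.norm_add_le_max a (-w)
  rwa [norm_neg, ← sub_eq_add_neg] at this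

theorem max_center {a : K} {S : ℝ} (ha : ‖a‖ ≤ S) (w : K) : max ‖a - w‖ S = max ‖(0 : K) - w‖ S := by
  have h1 : ‖a - w‖ ≤ max ‖a‖ ‖w‖ := nsub a w
  have h2 : ‖w‖ ≤ max ‖a‖ ‖a - w‖ := by
    have : w = a - (a - w) := by ring
    calc ‖w‖ = ‖a - (a - w)‖ := by rw [← this]
      _ ≤ max ‖a‖ ‖a - w‖ := nsub a (a - w)
  rw [zero_sub, norm_neg]
  apply le_antisymm
  · refine max_le (h1.trans (max_le (ha.trans (le_max_right _ _)) (le_max_left _ _)))
      (le_max_right _ _)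
  · refine max_le (h2.trans (max_le (ha.trans (le_max_right _ _)) (le_max_left _ _)))
      (le_max_right _ _)

theorem hk_gauss (hG : S_GLAM.{u}) (a : K) (r : ℝ) (hr : 0 < r) : HK (gauss a r hr : BA K) := by
  intro w hw
  have h1 := (hG K a w).2 r hr
  rw [hw, (hG K w w).1, sub_self, norm_zero] at h1
  have h2 : r ≤ max ‖a - w‖ r := le_max_right _ _
  linarith

theorem gn_center [IsAlgClosed K] (hV : S_VAL.{u}) (hG : S_GLAM.{u}) {a : K} {S : ℝ}
    (hS : 0 < S) (ha : ‖a‖ ≤ S) (h : K[X]) : gn a S h = gn 0 S h := by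
  have h1 := hV K (gauss a S hS) h
  have h2 := hV K (gauss 0 S hS) h
  have h3 : (gauss a S hS : BA K) h = gn a S h := rfl
  have h4 : (gauss 0 S hS : BA K) h = gn 0 S h := rfl
  rw [← h3, ← h4, h1, h2]
  congr 2
  refine Multiset.map_congr rfl fun w _ => ?_
  rw [(hG K a w).2 S hS, (hG K 0 w).2 S hS, max_center ha]

/-- the image of a type II point -/
theorem act_log [IsAlgClosed K] (hA : S_ACT.{u}) (hG : S_GLAM.{u}) (f : RMap K) (a : K)
    (r : ℝ) (hr : 0 < r) (b : K) (t : ℝ) (ht : 0 < t)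
    (hact : f.act ((gauss a r hr : BA K) : P1B K) = ((gauss b t ht : BA K) : P1B K)) (e : K) :
    Real.log (max ‖e - b‖ t) =
      Real.log (gn a r (f.P - C e * f.Q)) - Real.log (gn a r f.Q) := by
  obtain ⟨y, _, hy2, _, hy4⟩ := (hA K f).1 (gauss a r hr) (hk_gauss hG a r hr)
  rw [hact] at hy2
  have hy : gauss b t ht = y := OnePoint.coe_injective hy2
  have h1 := hy4 e
  rw [← hy, (hG K b e).2 t ht] at h1
  have h2 : (gauss a r hr : BA K) (f.P - C e * f.Q) = gn a r (f.P - C e * f.Q) := rfl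
  have h3 : (gauss a r hr : BA K) f.Q = gn a r f.Q := rfl
  rw [h2, h3] at h1
  have h4 : 0 < max ‖b - e‖ t := lt_of_lt_of_le ht (le_max_right _ _)
  have h5 : gn a r f.Q ≠ 0 := by
    intro h0
    rw [h1, h0, div_zero] at h4
    exact lt_irrefl _ h4
  have h6 : gn a r (f.P - C e * f.Q) ≠ 0 := by
    intro h0
    rw [h1, h0, zero_div] at h4
    exact lt_irrefl _ h4
  rw [norm_sub_rev, h1, Real.log_div h6 h5]

theorem kap_cl (hG : S_GLAM.{u}) (b e : K) (t : ℝ) :
    kap b t ((cl e : BA K) : P1B K) = Real.log (max ‖e - b‖ t) - Real.log (max 1 ‖e‖) := by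
  have h1 : kap b t ((cl e : BA K) : P1B K) =
      Real.log (max (lam (cl e) b) t) - Real.log (max 1 ((cl e : BA K) X)) := rfl
  have h2 : (cl e : BA K) X = ‖(X : K[X]).eval e‖ := rfl
  rw [h1, h2, (hG K e b).1, eval_X]

omit [IsUltrametricDist K] in
theorem sum_map_sub (s : Multiset (P1B K)) (φ ψ χ : P1B K → ℝ)
    (h : ∀ x, φ x = ψ x - χ x) : (s.map φ).sum = (s.map ψ).sum - (s.map χ).sum := by
  induction s using Multiset.induction_on with
  | empty => simp
  | cons x s ih =>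
    rw [Multiset.map_cons, Multiset.map_cons, Multiset.map_cons, Multiset.sum_cons,
      Multiset.sum_cons, Multiset.sum_cons, ih, h]
    ring

theorem eq_of_dense [IsAlgClosed K] (hD : S_DENSE.{u}) {F G : P1B K → ℝ} (hF : Continuous F)
    (hG : Continuous G) (h : ∀ e : K, F ((cl e : BA K) : P1B K) = G ((cl e : BA K) : P1B K))
    (x : P1B K) : F x = G x := by
  have := hD K x
  have ht : Tendsto (fun b : K => ((cl b : BA K) : P1B K)) (toward x) (𝓝 x) := tendsto_comap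
  have h1 : Tendsto (fun b : K => F ((cl b : BA K) : P1B K)) (toward x) (𝓝 (F x)) :=
    (hF.tendsto x).comp ht
  have h2 : Tendsto (fun b : K => G ((cl b : BA K) : P1B K)) (toward x) (𝓝 (G x)) :=
    (hG.tendsto x).comp ht
  have h3 : (fun b : K => F ((cl b : BA K) : P1B K)) = fun b => G ((cl b : BA K) : P1B K) :=
    funext h
  rw [h3] at h1
  exact tendsto_nhds_unique h1 h2

end lemmas

theorem main : S_KAPC.{u} → S_PF.{u} → S_SUMK.{u} → S_ACT.{u} → S_GLAM.{u} → S_VAL.{u} →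
    S_DENSE.{u} → S_KID.{u} := by
  intro hK hPF hSum hA hG hV hD K _ _ _ f a c r hr b t ht b₀ t₀ ht₀ _ h1 h2 x
  obtain ⟨_, _, hPF3⟩ := hPF K f
  obtain ⟨hc1, hc2⟩ := hPF3 ⟨kap a r, (hK K a r hr).1⟩
  refine eq_of_dense hD hc2 (((hK K b t ht).1.sub (hK K b₀ t₀ ht₀).1).add
    continuous_const) (fun e => ?_) x
  rw [hc1 e]
  obtain ⟨S, hS⟩ : ∃ S, S = max 1 (max r ‖a‖) := ⟨_, rfl⟩
  have hS1 : 1 ≤ S := by rw [hS]; exact le_max_left _ _
  have hSr : r ≤ S := by rw [hS]; exact (le_max_left _ _).trans (le_max_right _ _)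
  have hSa : ‖a‖ ≤ S := by rw [hS]; exact (le_max_right _ _).trans (le_max_right _ _)
  have hS0 : 0 < S := by linarith
  have h3 : ((fib f e).map (kap a r)).sum =
      ((fib f e).map (ker (0 : K) 1 S)).sum - ((fib f e).map (ker a r S)).sum :=
    sum_map_sub _ _ _ _ ((hK K a r hr).2.1 S hS1 hSr hSa)
  have h4 : ((fib f e).map (⟨kap a r, (hK K a r hr).1⟩ : C(P1B K, ℝ))).sum =
      ((fib f e).map (kap a r)).sum := rfl
  show _ = kap b t ((cl e : BA K) : P1B K) - kap b₀ t₀ ((cl e : BA K) : P1B K) +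
    (Real.log (gn a r f.Q) - Real.log (gn 0 1 f.Q))
  rw [h4, h3, hSum K f e 0 1 S one_pos hS0, hSum K f e a r S hr hS0,
    gn_center hV hG hS0 hSa, kap_cl hG, kap_cl hG,
    act_log hA hG f a r hr b t ht h1 e, act_log hA hG f 0 1 one_pos b₀ t₀ ht₀ h2 e]
  ring

end Pool.Agent.W397.EQ
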